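import Mathlib

set_option autoImplicit false

open InnerProductSpace Metric Set Filter Topology

namespace Pool.Agent.Lib.MP_e6ddea_an

/-- Near a local minimum a harmonic function is constant. -/
theorem eventually_const_of_isLocalMin {h : ℂ → ℝ} {z : ℂ} (hz : HarmonicAt h z)
    (hmin : ∀ᶠ w in 𝓝 z, h z ≤ h w) : ∀ᶠ w in 𝓝 z, h w = h z := by
  obtain ⟨ε, h₁ε, h₂ε⟩ := Metric.isOpen_iff.1 (isOpen_setOfPred_harmonicAt (f := h)) z hz
  obtain ⟨F, h₁F, h₂F⟩ := InnerProductSpace.HarmonicOnNhd.exists_analyticOnNhd_ball_re_eq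
    (f := h) (z := z) (R := ε) (fun _ hy ↦ h₂ε hy)
  have hball : ball z ε ∈ 𝓝 z := ball_mem_nhds z h₁ε
  have hd : ∀ᶠ w in 𝓝 z, DifferentiableAt ℂ (fun w => Complex.exp (-F w)) w := by
    filter_upwards [hball] with w hw
    exact (((h₁F w hw).differentiableAt).neg).cexp
  have hmax : IsLocalMax (norm ∘ fun w => Complex.exp (-F w)) z := by
    filter_upwards [hball, hmin] with w hw hw2
    simp only [Function.comp, Complex.norm_exp, Complex.neg_re]
    rw [Real.exp_le_exp]
    have e1 := h₂F hw
    have e2 := h₂F (mem_ball_self h₁ε)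
    simp only at e1 e2
    rw [e1, e2]
    linarith
  have := Complex.norm_eventually_eq_of_isLocalMax hd hmax
  filter_upwards [hball, this] with w hw hw2
  simp only [Complex.norm_exp, Complex.neg_re] at hw2
  have e1 := h₂F hw
  have e2 := h₂F (mem_ball_self h₁ε)
  simp only at e1 e2
  rw [Real.exp_eq_exp] at hw2
  rw [← e1, ← e2]
  linarith

/-- Weak minimum principle: a harmonic function on an open set whose negative part is small
outside compact subsets is nonnegative. -/
theorem weak_min {U : Set ℂ} (hU : IsOpen U) {h : ℂ → ℝ} (hh : HarmonicOnNhd h U)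
    (hb : ∀ δ : ℝ, 0 < δ → ∃ K : Set ℂ, K ⊆ U ∧ IsCompact K ∧ ∀ z ∈ U, z ∉ K → -δ < h z) :
    ∀ z ∈ U, 0 ≤ h z := by
  intro w hw
  by_contra hneg
  push Not at hneg
  obtain ⟨K, hKU, hK, hKb⟩ := hb (-h w / 2) (by linarith)
  have hwK : w ∈ K := by
    by_contra hwK
    have := hKb w hw hwK
    linarith
  have hcont : ContinuousOn h K := hh.continuousOn.mono hKU
  obtain ⟨z₁, hz₁, hz₁min⟩ := hK.exists_isMinOn ⟨w, hwK⟩ hcont
  have hz₁w : h z₁ ≤ h w := hz₁min hwK
  have hglob : ∀ z ∈ U, h z₁ ≤ h z := by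
    intro z hz
    by_cases hzK : z ∈ K
    · exact hz₁min hzK
    · have := hKb z hz hzK
      linarith
  -- the set where the minimum is attained
  let S : Set ℂ := {z | z ∈ U ∧ h z = h z₁}
  have hSK : S ⊆ K := by
    intro z hz
    by_contra hzK
    have := hKb z hz.1 hzK
    have := hz.2
    linarith
  have hSclosed : IsClosed S := by
    have : S = K ∩ h ⁻¹' {h z₁} := by
      ext z
      constructor
      · intro hz
        exact ⟨hSK hz, hz.2⟩
      · intro hz
        exact ⟨hKU hz.1, hz.2⟩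
    rw [this]
    exact hcont.preimage_isClosed_of_isClosed hK.isClosed isClosed_singleton
  have hSopen : IsOpen S := by
    rw [isOpen_iff_mem_nhds]
    intro z hz
    have h1 : ∀ᶠ w in 𝓝 z, h w = h z := by
      apply eventually_const_of_isLocalMin (hh z hz.1)
      filter_upwards [hU.mem_nhds hz.1] with y hy
      rw [hz.2]
      exact hglob y hy
    filter_upwards [h1, hU.mem_nhds hz.1] with y hy hyU
    exact ⟨hyU, by rw [hy, hz.2]⟩
  have hSuniv : S = univ := IsClopen.eq_univ ⟨hSclosed, hSopen⟩ ⟨z₁, hKU hz₁, rfl⟩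
  have hKuniv : K = univ := by
    apply eq_univ_of_univ_subset
    rw [← hSuniv]
    exact hSK
  rw [hKuniv] at hK
  exact noncompact_univ ℂ hK

/-- Composition of a harmonic function with an analytic function is harmonic. -/
theorem harmonicAt_comp {h : ℂ → ℝ} {φ : ℂ → ℂ} {w : ℂ} (hφ : AnalyticAt ℂ φ w)
    (hh : HarmonicAt h (φ w)) : HarmonicAt (fun x => h (φ x)) w := by
  obtain ⟨ε, h₁ε, h₂ε⟩ := Metric.isOpen_iff.1 (isOpen_setOfPred_harmonicAt (f := h)) (φ w) hh
  obtain ⟨F, h₁F, h₂F⟩ := InnerProductSpace.HarmonicOnNhd.exists_analyticOnNhd_ball_re_eq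
    (f := h) (z := φ w) (R := ε) (fun _ hy ↦ h₂ε hy)
  have h1 : AnalyticAt ℂ (fun x => F (φ x)) w :=
    AnalyticAt.comp (h₁F (φ w) (mem_ball_self h₁ε)) hφ
  have h2 := h1.harmonicAt_re
  rw [harmonicAt_congr_nhds (f₂ := fun z => (F (φ z)).re)]
  · exact h2
  · have : ∀ᶠ x in 𝓝 w, φ x ∈ ball (φ w) ε :=
      hφ.continuousAt.eventually (ball_mem_nhds _ h₁ε)
    filter_upwards [this] with x hx
    exact (h₂F hx).symm

/-- Harnack inequality on a closed disc. -/
theorem harnack {h : ℂ → ℝ} {c : ℂ} {R : ℝ} (hR : 0 < R)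
    (hh : HarmonicOnNhd h (closedBall c R)) (hpos : ∀ z ∈ closedBall c R, 0 ≤ h z)
    {w : ℂ} (hw : w ∈ ball c R) :
    (R - ‖w - c‖) / (R + ‖w - c‖) * h c ≤ h w ∧ h w ≤ (R + ‖w - c‖) / (R - ‖w - c‖) * h c := by
  have h1 := hh.circleAverage_re_herglotzRieszKernel_smul hw
  have h2 : Real.circleAverage h c R = h c := by
    apply HarmonicOnNhd.circleAverage_eq
    rwa [abs_of_pos hR]
  have hci : CircleIntegrable h c R := by
    apply ContinuousOn.circleIntegrable hR.le
    exact hh.continuousOn.mono sphere_subset_closedBall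
  have hci2 : CircleIntegrable ((Complex.re ∘ herglotzRieszKernel c w) • h) c R := by
    apply ContinuousOn.circleIntegrable hR.le
    apply ContinuousOn.smul
    · apply Complex.continuous_re.comp_continuousOn
      have := continuousOn_herglotzRieszKernel_sphere hw
      rwa [abs_of_pos hR] at this
    · exact hh.continuousOn.mono sphere_subset_closedBall
  constructor
  · rw [← h1, ← h2]
    rw [← smul_eq_mul, ← Real.circleAverage_smul]
    apply Real.circleAverage_mono
    · exact hci.const_smul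
    · exact hci2
    · intro x hx
      rw [abs_of_pos hR] at hx
      simp only [Pi.smul_apply, smul_eq_mul, Pi.smul_apply', Function.comp]
      apply mul_le_mul_of_nonneg_right _ (hpos x (sphere_subset_closedBall hx))
      exact le_re_herglotzRieszKernel hx hw
  · rw [← h1, ← h2]
    rw [← smul_eq_mul, ← Real.circleAverage_smul]
    apply Real.circleAverage_mono
    · exact hci2
    · exact hci.const_smul
    · intro x hx
      rw [abs_of_pos hR] at hx
      simp only [Pi.smul_apply, smul_eq_mul, Pi.smul_apply', Function.comp]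
      apply mul_le_mul_of_nonneg_right _ (hpos x (sphere_subset_closedBall hx))
      exact re_herglotzRieszKernel_le hx hw

end Pool.Agent.Lib.MP_e6ddea_an
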