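import Mathlib
import Pool.Agent.Lib.MP_e6ddea_an.Basic

set_option autoImplicit false

open InnerProductSpace Metric Set Filter Topology

namespace Pool.Agent.Lib.MP_e6ddea_an

/-- The right half plane. -/
def HP : Set ℂ := {w : ℂ | 0 < w.re}

theorem isOpen_HP : IsOpen HP := isOpen_lt continuous_const Complex.continuous_re

/-- The Green function of the half plane with pole `p`. -/
noncomputable def grn (p w : ℂ) : ℝ := Real.log ‖w + (starRingEnd ℂ) p‖ - Real.log ‖w - p‖

theorem norm_lt_norm_conj {p w : ℂ} (hp : 0 < p.re) (hw : 0 < w.re) :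
    ‖w - p‖ < ‖w + (starRingEnd ℂ) p‖ := by
  have h1 : ‖w - p‖ ^ 2 < ‖w + (starRingEnd ℂ) p‖ ^ 2 := by
    rw [← Complex.normSq_eq_norm_sq, ← Complex.normSq_eq_norm_sq]
    simp only [Complex.normSq_apply, Complex.sub_re, Complex.sub_im, Complex.add_re,
      Complex.add_im, Complex.conj_re, Complex.conj_im]
    nlinarith [mul_pos hp hw]
  exact lt_of_pow_lt_pow_left₀ 2 (norm_nonneg _) h1

theorem grn_pos {p w : ℂ} (hp : 0 < p.re) (hw : 0 < w.re) (hne : w ≠ p) : 0 < grn p w := by
  unfold grn
  have h0 : 0 < ‖w - p‖ := norm_pos_iff.2 (sub_ne_zero.2 hne)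
  have := Real.log_lt_log h0 (norm_lt_norm_conj hp hw)
  linarith

theorem harmonicAt_log_sub {p w : ℂ} (hne : w ≠ p) :
    HarmonicAt (fun z => Real.log ‖z - p‖) w := by
  have h1 : AnalyticAt ℂ (fun z : ℂ => z - p) w := by fun_prop
  exact h1.harmonicAt_log_norm (sub_ne_zero.2 hne)

theorem harmonicAt_grn {p w : ℂ} (hp : 0 < p.re) (hw : 0 < w.re) (hne : w ≠ p) :
    HarmonicAt (grn p) w := by
  have h2 : w ≠ -(starRingEnd ℂ) p := by
    intro h
    have := congrArg Complex.re h
    simp at this
    linarith
  have h1 := (harmonicAt_log_sub h2).sub (harmonicAt_log_sub hne)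
  convert h1 using 1
  ext z
  simp [grn]

/-- A harmonic function on the half plane minus two points, bounded and dominated by `re`,
is nonpositive. -/
theorem nonpos_of_bounded {p q : ℂ} (hp : 0 < p.re) (hq : 0 < q.re) {V : ℂ → ℝ} {M : ℝ}
    (hV : HarmonicOnNhd V (HP \ {p, q}))
    (hM : ∀ w ∈ HP \ {p, q}, V w ≤ M)
    (hre : ∀ w ∈ HP \ {p, q}, V w ≤ w.re) :
    ∀ w ∈ HP \ {p, q}, V w ≤ 0 := by
  have hΩ : IsOpen (HP \ {p, q}) := isOpen_HP.sdiff (Set.toFinite {p, q}).isClosed
  -- the barrier
  let B : ℂ → ℝ := fun w => Real.log ‖w - (-2)‖ + grn p w + grn q w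
  have hmem : ∀ w ∈ HP \ {p, q}, 0 < w.re ∧ w ≠ p ∧ w ≠ q := by
    intro w hw
    refine ⟨hw.1, ?_, ?_⟩
    · rintro rfl
      exact hw.2 (by simp)
    · rintro rfl
      exact hw.2 (by simp)
  have hlog2 : ∀ w ∈ HP \ {p, q}, 0 < Real.log ‖w - (-2)‖ := by
    intro w hw
    obtain ⟨h1, h2, h3⟩ := hmem w hw
    apply Real.log_pos
    have : (w - (-2)).re ≤ ‖w - (-2)‖ := Complex.re_le_norm _
    have h4 : (w - (-2)).re = w.re + 2 := by simp
    linarith
  have hBpos : ∀ w ∈ HP \ {p, q}, 0 < B w := by
    intro w hw
    obtain ⟨h1, h2, h3⟩ := hmem w hw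
    have := grn_pos hp h1 h2
    have := grn_pos hq h1 h3
    have := hlog2 w hw
    simp only [B]
    linarith
  have hBharm : HarmonicOnNhd B (HP \ {p, q}) := by
    intro w hw
    obtain ⟨h1, h2, h3⟩ := hmem w hw
    have h4 : w ≠ (-2 : ℂ) := by
      rintro rfl
      simp at h1
      linarith
    have := ((harmonicAt_log_sub h4).add (harmonicAt_grn hp h1 h2)).add (harmonicAt_grn hq h1 h3)
    exact this
  have key : ∀ ε : ℝ, 0 < ε → ∀ w ∈ HP \ {p, q}, 0 ≤ ε * B w - V w := by
    intro ε hε
    have hharm : HarmonicOnNhd (fun w => ε * B w - V w) (HP \ {p, q}) := by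
      intro w hw
      exact ((hBharm w hw).const_smul (c := ε)).sub (hV w hw)
    apply weak_min hΩ hharm
    intro δ hδ
    let ρp : ℝ := p.re * Real.exp (-(|M| / ε))
    let ρq : ℝ := q.re * Real.exp (-(|M| / ε))
    let R : ℝ := Real.exp (|M| / ε)
    have hρp : 0 < ρp := mul_pos hp (Real.exp_pos _)
    have hρq : 0 < ρq := mul_pos hq (Real.exp_pos _)
    refine ⟨closedBall 0 R ∩ ({w | δ ≤ w.re} ∩ ({w | ρp ≤ ‖w - p‖} ∩ {w | ρq ≤ ‖w - q‖})),
      ?_, ?_, ?_⟩
    · rintro w ⟨h1, h2, h3, h4⟩
      simp only [mem_setOf_eq] at h2 h3 h4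
      refine ⟨?_, ?_⟩
      · show 0 < w.re
        linarith
      · rintro (rfl | h)
        · simp at h3
          linarith
        · rw [mem_singleton_iff] at h
          subst h
          simp at h4
          linarith
    · apply (isCompact_closedBall 0 R).inter_right
      refine IsClosed.inter ?_ (IsClosed.inter ?_ ?_)
      · exact isClosed_le continuous_const Complex.continuous_re
      · exact isClosed_le continuous_const (by fun_prop)
      · exact isClosed_le continuous_const (by fun_prop)
    · intro w hw hnot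
      obtain ⟨h1, h2, h3⟩ := hmem w hw
      have hBp := hBpos w hw
      have e1 := grn_pos hp h1 h2
      have e2 := grn_pos hq h1 h3
      have e3 := hlog2 w hw
      have eM := hM w hw
      have eMabs : M ≤ |M| := le_abs_self M
      have puncture : ∀ r : ℂ, 0 < r.re → w ≠ r → ‖w - r‖ < r.re * Real.exp (-(|M| / ε)) →
          |M| < ε * grn r w := by
        intro r hr hwr hlt
        have h0 : 0 < ‖w - r‖ := norm_pos_iff.2 (sub_ne_zero.2 hwr)
        have h5 : Real.log ‖w - r‖ < Real.log r.re + -(|M| / ε) := by
          have := Real.log_lt_log h0 hlt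
          rwa [Real.log_mul hr.ne' (Real.exp_pos _).ne', Real.log_exp] at this
        have h6 : Real.log r.re ≤ Real.log ‖w + (starRingEnd ℂ) r‖ := by
          apply Real.log_le_log hr
          have : (w + (starRingEnd ℂ) r).re ≤ ‖w + (starRingEnd ℂ) r‖ := Complex.re_le_norm _
          simp at this
          linarith
        have h7 : |M| / ε < grn r w := by
          unfold grn
          linarith
        rw [div_lt_iff₀ hε] at h7
        linarith
      by_cases c1 : w ∈ closedBall (0 : ℂ) R
      · by_cases c2 : δ ≤ w.re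
        · by_cases c3 : ρp ≤ ‖w - p‖
          · by_cases c4 : ρq ≤ ‖w - q‖
            · exact absurd ⟨c1, c2, c3, c4⟩ hnot
            · push Not at c4
              have := puncture q hq h3 c4
              have h8 : ε * B w = ε * Real.log ‖w - (-2)‖ + ε * grn p w + ε * grn q w := by
                simp only [B]; ring
              have := mul_pos hε e3
              have := mul_pos hε e1
              linarith
          · push Not at c3
            have := puncture p hp h2 c3
            have h8 : ε * B w = ε * Real.log ‖w - (-2)‖ + ε * grn p w + ε * grn q w := by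
              simp only [B]; ring
            have := mul_pos hε e3
            have := mul_pos hε e2
            linarith
        · push Not at c2
          have := hre w hw
          have := mul_pos hε hBp
          linarith
      · simp only [mem_closedBall, dist_zero_right, not_le] at c1
        have h5 : ‖w‖ ≤ ‖w - (-2)‖ := by
          have : ‖w‖ ^ 2 ≤ ‖w - (-2)‖ ^ 2 := by
            rw [← Complex.normSq_eq_norm_sq, ← Complex.normSq_eq_norm_sq]
            simp only [Complex.normSq_apply, Complex.sub_re, Complex.sub_im, Complex.neg_re,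
              Complex.neg_im, Complex.re_ofNat, Complex.im_ofNat]
            nlinarith
          exact le_of_sq_le_sq this (norm_nonneg _)
        have h6 : |M| / ε < Real.log ‖w - (-2)‖ := by
          have h7 : R < ‖w - (-2)‖ := lt_of_lt_of_le c1 h5
          have := Real.log_lt_log (Real.exp_pos _) h7
          rwa [Real.log_exp] at this
        rw [div_lt_iff₀ hε] at h6
        have h8 : ε * B w = ε * Real.log ‖w - (-2)‖ + ε * grn p w + ε * grn q w := by
          simp only [B]; ring
        have := mul_pos hε e1
        have := mul_pos hε e2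
        linarith
  intro w hw
  by_contra hpos
  push Not at hpos
  have hBp := hBpos w hw
  have := key (V w / (2 * B w)) (by positivity) w hw
  have h9 : V w / (2 * B w) * B w = V w / 2 := by
    field_simp
  rw [h9] at this
  linarith

end Pool.Agent.Lib.MP_e6ddea_an
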