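import Mathlib
import Pool.Agent.Lib.MP_e6ddea_an.HalfPlane

set_option autoImplicit false

open InnerProductSpace Metric Set Filter Topology

namespace Pool.Agent.Lib.MP_e6ddea_an

/-- Bound for vertical differences. -/
theorem diff_bound {b : ℝ} (hb : 0 < b) {U : ℂ → ℝ} (hU : HarmonicOnNhd U (HP \ {(b : ℂ)}))
    (hpos : ∀ w ∈ HP \ {(b : ℂ)}, 0 < U w) (hle : ∀ w ∈ HP \ {(b : ℂ)}, U w ≤ w.re)
    (t : ℝ) {w : ℂ} (hw : w ∈ HP \ {(b : ℂ)}) (hwt : w + t * Complex.I ∈ HP \ {(b : ℂ)}) :
    |U (w + t * Complex.I) - U w| ≤ 8 * |t| + 2 * b := by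
  have hwre : 0 < w.re := hw.1
  have hwb : w ≠ (b : ℂ) := fun h => hw.2 (by simp [h])
  have hwb' : 0 < ‖w - b‖ := norm_pos_iff.2 (sub_ne_zero.2 hwb)
  have h1 := hpos w hw
  have h2 := hle w hw
  have h3 := hpos _ hwt
  have h4 := hle _ hwt
  have hre' : (w + t * Complex.I).re = w.re := by simp
  rw [hre'] at h4
  have hreb : w.re ≤ b + ‖w - b‖ := by
    have : (w - b).re ≤ ‖w - b‖ := Complex.re_le_norm _
    simp at this
    linarith
  have ht0 : 0 ≤ |t| := abs_nonneg t
  set R0 : ℝ := min w.re ‖w - b‖ with hR0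
  have hR0pos : 0 < R0 := lt_min hwre hwb'
  by_cases hcase : R0 ≤ 4 * |t|
  · have h5 : w.re ≤ b + 4 * |t| := by
      rcases min_le_iff.1 hcase with h | h
      · linarith
      · linarith
    rw [abs_le]
    constructor <;> linarith
  · push Not at hcase
    -- Harnack
    set R : ℝ := R0 / 2 with hR
    have hRpos : 0 < R := by positivity
    have hsub : closedBall w R ⊆ HP \ {(b : ℂ)} := by
      intro z hz
      rw [mem_closedBall, dist_eq_norm] at hz
      have h6 : R0 ≤ w.re := min_le_left _ _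
      have h7 : R0 ≤ ‖w - b‖ := min_le_right _ _
      refine ⟨?_, ?_⟩
      · show 0 < z.re
        have h8 : (w - z).re ≤ ‖w - z‖ := Complex.re_le_norm _
        rw [Complex.sub_re, norm_sub_rev] at h8
        linarith
      · rintro h
        rw [mem_singleton_iff] at h
        subst h
        rw [norm_sub_rev] at hz
        linarith
    have hnorm : ‖w + t * Complex.I - w‖ = |t| := by
      simp
    have hball : w + t * Complex.I ∈ ball w R := by
      rw [mem_ball, dist_eq_norm, hnorm]
      linarith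
    obtain ⟨g1, g2⟩ := harnack hRpos (hU.mono hsub) (fun z hz => (hpos z (hsub hz)).le) hball
    rw [hnorm] at g1 g2
    have hRt : |t| < R / 2 := by linarith
    have hUR : |t| * U w ≤ (2 * |t| + b / 2) * R := by
      -- U w ≤ w.re ≤ R0 + (b if ...)
      rcases min_choice w.re ‖w - b‖ with h | h
      · have : w.re = 2 * R := by rw [hR, hR0, h]; ring
        nlinarith
      · have : w.re ≤ b + 2 * R := by
          have : ‖w - b‖ = 2 * R := by rw [hR, hR0, h]; ring
          linarith
        nlinarith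
    have h10 : (R + |t|) / (R - |t|) * U w - U w ≤ 8 * |t| + 2 * b := by
      have h11 : (R + |t|) / (R - |t|) * U w - U w = 2 * |t| * U w / (R - |t|) := by
        field_simp [show R - |t| ≠ 0 by linarith]
        ring
      rw [h11, div_le_iff₀ (by linarith)]
      nlinarith
    have h12 : U w - (R - |t|) / (R + |t|) * U w ≤ 8 * |t| + 2 * b := by
      have h11 : U w - (R - |t|) / (R + |t|) * U w = 2 * |t| * U w / (R + |t|) := by
        field_simp [show R + |t| ≠ 0 by linarith]
        ring
      rw [h11, div_le_iff₀ (by linarith)]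
      nlinarith
    rw [abs_le]
    constructor <;> linarith

/-- `U` is invariant under vertical translations. -/
theorem vertical_invariant {b : ℝ} (hb : 0 < b) {U : ℂ → ℝ}
    (hU : HarmonicOnNhd U (HP \ {(b : ℂ)}))
    (hpos : ∀ w ∈ HP \ {(b : ℂ)}, 0 < U w) (hle : ∀ w ∈ HP \ {(b : ℂ)}, U w ≤ w.re)
    (t : ℝ) {w : ℂ} (hw : w ∈ HP \ {(b : ℂ)}) (hwt : w + t * Complex.I ∈ HP \ {(b : ℂ)}) :
    U (w + t * Complex.I) = U w := by
  have hp : 0 < ((b : ℂ)).re := by simpa using hb
  have hq : 0 < ((b : ℂ) - t * Complex.I).re := by simpa using hb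
  have hmem : ∀ z ∈ HP \ {(b : ℂ), (b : ℂ) - t * Complex.I},
      z ∈ HP \ {(b : ℂ)} ∧ z + t * Complex.I ∈ HP \ {(b : ℂ)} := by
    rintro z ⟨hz1, hz2⟩
    refine ⟨⟨hz1, fun h => hz2 (Or.inl h)⟩, ⟨?_, fun h => hz2 (Or.inr ?_)⟩⟩
    · have hz1' : 0 < z.re := hz1
      show 0 < (z + t * Complex.I).re
      simpa using hz1'
    · rw [mem_singleton_iff] at h ⊢
      rw [← h]; ring
  have hharm : HarmonicOnNhd (fun z => U (z + t * Complex.I) - U z)
      (HP \ {(b : ℂ), (b : ℂ) - t * Complex.I}) := by
    intro z hz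
    obtain ⟨h1, h2⟩ := hmem z hz
    have h3 : HarmonicAt (fun z => U (z + t * Complex.I)) z :=
      harmonicAt_comp (φ := fun z => z + t * Complex.I) (by fun_prop) (hU _ h2)
    exact h3.sub (hU z h1)
  have hharm' : HarmonicOnNhd (fun z => U z - U (z + t * Complex.I))
      (HP \ {(b : ℂ), (b : ℂ) - t * Complex.I}) := by
    intro z hz
    obtain ⟨h1, h2⟩ := hmem z hz
    have h3 : HarmonicAt (fun z => U (z + t * Complex.I)) z :=
      harmonicAt_comp (φ := fun z => z + t * Complex.I) (by fun_prop) (hU _ h2)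
    exact (hU z h1).sub h3
  have hwmem : w ∈ HP \ {(b : ℂ), (b : ℂ) - t * Complex.I} := by
    refine ⟨hw.1, ?_⟩
    rintro (h | h)
    · exact hw.2 (by simp [h])
    · rw [mem_singleton_iff] at h
      apply hwt.2
      rw [mem_singleton_iff, h]
      ring
  have e1 := nonpos_of_bounded hp hq (M := 8 * |t| + 2 * b) hharm
    (fun z hz => (le_abs_self _).trans (diff_bound hb hU hpos hle t (hmem z hz).1 (hmem z hz).2))
    (fun z hz => by
      have h1 := hle _ (hmem z hz).2
      have h2 := hpos _ (hmem z hz).1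
      have h3 : (z + t * Complex.I).re = z.re := by simp
      rw [h3] at h1
      linarith) w hwmem
  have e2 := nonpos_of_bounded hp hq (M := 8 * |t| + 2 * b) hharm'
    (fun z hz => by
      have h := diff_bound hb hU hpos hle t (hmem z hz).1 (hmem z hz).2
      rw [abs_sub_comm] at h
      exact (le_abs_self _).trans h)
    (fun z hz => by
      have h1 := hle _ (hmem z hz).1
      have h2 := hpos _ (hmem z hz).2
      linarith) w hwmem
  linarith

/-- Minimality of `re` in the right half plane minus a real point. -/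
theorem halfplane_minimal {b : ℝ} (hb : 0 < b) {U : ℂ → ℝ}
    (hU : HarmonicOnNhd U (HP \ {(b : ℂ)}))
    (hpos : ∀ w ∈ HP \ {(b : ℂ)}, 0 < U w) (hle : ∀ w ∈ HP \ {(b : ℂ)}, U w ≤ w.re) :
    ∃ α : ℝ, ∀ w ∈ HP \ {(b : ℂ)}, U w = α * w.re := by
  have hinv := @vertical_invariant b hb U hU hpos hle
  have hopen : IsOpen (HP \ {(b : ℂ)}) := isOpen_HP.sdiff (Set.toFinite {(b : ℂ)}).isClosed
  -- vertical derivative vanishes
  have hI : ∀ w ∈ HP \ {(b : ℂ)}, fderiv ℝ U w Complex.I = 0 := by
    intro w hw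
    have hd : DifferentiableAt ℝ U w := (hU w hw).1.differentiableAt two_ne_zero
    have h1 : HasDerivAt (fun t : ℝ => U (w + t * Complex.I)) (fderiv ℝ U w Complex.I) 0 := by
      have h2 : HasDerivAt (fun t : ℝ => w + t * Complex.I) Complex.I 0 := by
        have := ((hasDerivAt_id (0 : ℝ)).ofReal_comp.mul_const Complex.I).const_add w
        simpa using this
      have h3 : HasFDerivAt U (fderiv ℝ U w) (w + ((0 : ℝ) : ℂ) * Complex.I) := by
        simpa using hd.hasFDerivAt
      exact h3.comp_hasDerivAt 0 h2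
    have h4 : (fun t : ℝ => U (w + t * Complex.I)) =ᶠ[𝓝 0] fun _ => U w := by
      have h5 : Tendsto (fun t : ℝ => w + t * Complex.I) (𝓝 0) (𝓝 w) := by
        have : Continuous (fun t : ℝ => w + t * Complex.I) := by fun_prop
        simpa using this.tendsto 0
      filter_upwards [h5.eventually (hopen.mem_nhds hw)] with t ht
      exact hinv t hw ht
    have h6 : HasDerivAt (fun _ : ℝ => U w) (fderiv ℝ U w Complex.I) 0 :=
      h1.congr_of_eventuallyEq h4.symm
    exact h6.unique (hasDerivAt_const _ _)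
  -- invariance of the horizontal derivative
  have hf_inv : ∀ w ∈ HP \ {(b : ℂ)}, ∀ᶠ t : ℝ in 𝓝 0,
      fderiv ℝ U (w + t * Complex.I) = fderiv ℝ U w := by
    intro w hw
    have h5 : Tendsto (fun t : ℝ => w + t * Complex.I) (𝓝 0) (𝓝 w) := by
      have : Continuous (fun t : ℝ => w + t * Complex.I) := by fun_prop
      simpa using this.tendsto 0
    filter_upwards [h5.eventually (hopen.mem_nhds hw)] with t ht
    have h7 : (fun z => U (z + t * Complex.I)) =ᶠ[𝓝 w] U := by
      have h8 : Tendsto (fun z : ℂ => z + t * Complex.I) (𝓝 w) (𝓝 (w + t * Complex.I)) := by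
        have : Continuous (fun z : ℂ => z + t * Complex.I) := by fun_prop
        exact this.tendsto w
      filter_upwards [hopen.mem_nhds hw, h8.eventually (hopen.mem_nhds ht)] with z hz hz2
      exact hinv t hz hz2
    have h9 := h7.fderiv_eq (𝕜 := ℝ)
    rw [fderiv_comp_add_right] at h9
    exact h9
  let f : ℂ → ℂ := fun z ↦ (fderiv ℝ U z 1 : ℂ) - Complex.I * fderiv ℝ U z Complex.I
  have hfd : ∀ w ∈ HP \ {(b : ℂ)}, DifferentiableAt ℂ f w := by
    intro w hw
    exact HarmonicAt.differentiableAt_complex_partial (hU w hw)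
  have hf0 : ∀ w ∈ HP \ {(b : ℂ)}, deriv f w = 0 := by
    intro w hw
    have h1 : HasDerivAt (fun t : ℝ => f (w + t * Complex.I)) (deriv f w * Complex.I) 0 := by
      have h2 : HasDerivAt (fun t : ℝ => w + t * Complex.I) Complex.I 0 := by
        have := ((hasDerivAt_id (0 : ℝ)).ofReal_comp.mul_const Complex.I).const_add w
        simpa using this
      have h3 : HasDerivAt f (deriv f w) (w + ((0 : ℝ) : ℂ) * Complex.I) := by
        simpa using (hfd w hw).hasDerivAt
      exact h3.comp 0 h2
    have h4 : (fun t : ℝ => f (w + t * Complex.I)) =ᶠ[𝓝 0] fun _ => f w := by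
      filter_upwards [hf_inv w hw] with t ht
      simp only [f]
      rw [ht]
    have h6 : HasDerivAt (fun _ : ℝ => f w) (deriv f w * Complex.I) 0 :=
      h1.congr_of_eventuallyEq h4.symm
    have h7 := h6.unique (hasDerivAt_const _ _)
    simpa using h7
  -- the upper quadrant
  let Q : Set ℂ := {w | 0 < w.re} ∩ {w | 0 < w.im}
  have hQopen : IsOpen Q :=
    (isOpen_lt continuous_const Complex.continuous_re).inter
      (isOpen_lt continuous_const Complex.continuous_im)
  have hQconv : Convex ℝ Q :=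
    (convex_halfSpace_re_gt 0).inter (convex_halfSpace_im_gt 0)
  have hQsub : Q ⊆ HP \ {(b : ℂ)} := by
    rintro w ⟨h1, h2⟩
    refine ⟨h1, ?_⟩
    rintro h
    rw [mem_singleton_iff] at h
    subst h
    simp at h2
  have h1Q : (1 + Complex.I) ∈ Q := by
    constructor <;> simp
  have hfconst : ∀ w ∈ Q, f w = f (1 + Complex.I) := by
    intro w hw
    exact hQopen.is_const_of_deriv_eq_zero hQconv.isPreconnected
      (fun z hz => (hfd z (hQsub hz)).differentiableWithinAt)
      (fun z hz => hf0 z (hQsub hz)) hw h1Q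
  let α : ℝ := fderiv ℝ U (1 + Complex.I) 1
  have hfα : ∀ w ∈ Q, fderiv ℝ U w 1 = α := by
    intro w hw
    have h := hfconst w hw
    simp only [f] at h
    rw [hI w (hQsub hw), hI _ (hQsub h1Q)] at h
    simp at h
    exact_mod_cast h
  -- U - α re is constant on Q
  let G : ℂ → ℝ := fun w => U w - α * w.re
  have hGd : ∀ w ∈ Q, HasFDerivAt G (0 : ℂ →L[ℝ] ℝ) w := by
    intro w hw
    have hd : DifferentiableAt ℝ U w := (hU w (hQsub hw)).1.differentiableAt two_ne_zero
    have h1 : HasFDerivAt G (fderiv ℝ U w - α • Complex.reCLM) w := by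
      have h2 : HasFDerivAt (fun w : ℂ => α * w.re) (α • Complex.reCLM) w := by
        exact (Complex.reCLM.hasFDerivAt (x := w)).const_smul α
      exact hd.hasFDerivAt.sub h2
    have h3 : fderiv ℝ U w - α • Complex.reCLM = 0 := by
      ext v
      have h4 : v = v.re • (1 : ℂ) + v.im • Complex.I := by simp
      have h5 : fderiv ℝ U w v = α * v.re := by
        conv_lhs => rw [h4]
        rw [map_add, map_smul, map_smul, hfα w hw, hI w (hQsub hw)]
        simp [mul_comm]
      simp [h5]
    rwa [h3] at h1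
  have hGconst : ∀ w ∈ Q, G w = G (1 + Complex.I) := by
    intro w hw
    exact hQopen.is_const_of_fderiv_eq_zero (𝕜 := ℝ) hQconv.isPreconnected
      (fun z hz => (hGd z hz).differentiableAt.differentiableWithinAt)
      (fun z hz => (hGd z hz).fderiv) hw h1Q
  let β : ℝ := G (1 + Complex.I)
  have hall : ∀ w ∈ HP \ {(b : ℂ)}, U w = α * w.re + β := by
    intro w hw
    have hwre : 0 < w.re := hw.1
    have h1 : w + ((1 - w.im : ℝ) : ℂ) * Complex.I ∈ Q := by
      constructor
      · show 0 < (w + ((1 - w.im : ℝ) : ℂ) * Complex.I).re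
        simpa using hwre
      · show 0 < (w + ((1 - w.im : ℝ) : ℂ) * Complex.I).im
        simp
    have h2 := hinv (1 - w.im) hw (hQsub h1)
    have h3 := hGconst _ h1
    have h4 : (w + ((1 - w.im : ℝ) : ℂ) * Complex.I).re = w.re := by simp
    simp only [G] at h3
    rw [h4, h2] at h3
    show U w = α * w.re + G (1 + Complex.I)
    simp only [G]
    linarith
  have hβ : β = 0 := by
    -- evaluate at x + I for small x
    have hx : ∀ x : ℝ, 0 < x → 0 < α * x + β ∧ α * x + β ≤ x := by
      intro x hx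
      have hmem : ((x : ℂ) + Complex.I) ∈ HP \ {(b : ℂ)} := by
        apply hQsub
        constructor <;> simp [hx]
      have h1 := hall _ hmem
      have h2 := hpos _ hmem
      have h3 := hle _ hmem
      have h4 : ((x : ℂ) + Complex.I).re = x := by simp
      rw [h4] at h1 h3
      constructor <;> linarith
    by_contra hne
    have hα : 0 < 2 * (|α| + 1) := by positivity
    rcases lt_or_gt_of_ne hne with h | h
    · -- β < 0
      have hx0 : 0 < -β / (2 * (|α| + 1)) := div_pos (by linarith) hα
      obtain ⟨h1, h2⟩ := hx _ hx0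
      set x := -β / (2 * (|α| + 1)) with hxdef
      have h3 : (|α| + 1) * x = -β / 2 := by
        rw [hxdef]; field_simp
      have h4 : α * x ≤ |α| * x := mul_le_mul_of_nonneg_right (le_abs_self α) hx0.le
      linarith
    · have hx0 : 0 < β / (2 * (|α| + 1)) := div_pos h hα
      obtain ⟨h1, h2⟩ := hx _ hx0
      set x := β / (2 * (|α| + 1)) with hxdef
      have h3 : (|α| + 1) * x = β / 2 := by
        rw [hxdef]; field_simp
      have h4 : -α * x ≤ |α| * x := mul_le_mul_of_nonneg_right (neg_le_abs α) hx0.le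
      linarith
  exact ⟨α, fun w hw => by rw [hall w hw, hβ, add_zero]⟩

end Pool.Agent.Lib.MP_e6ddea_an
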