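import Mathlib
import Pool.Agent.Lib.MP_e6ddea_an.Minimal

set_option autoImplicit false

open InnerProductSpace Metric Set Filter Topology

namespace Pool.Agent.Lib.MP_e6ddea_an

/-- The unit disc punctured at `1/2`. -/
def PD : Set ℂ := ball (0 : ℂ) 1 \ {(1 / 2 : ℂ)}

theorem isOpen_PD : IsOpen PD := isOpen_ball.sdiff (Set.toFinite {(1 / 2 : ℂ)}).isClosed

theorem zero_mem_PD : (0 : ℂ) ∈ PD := by
  refine ⟨by simp, ?_⟩
  simp

theorem isConnected_PD : IsConnected PD := by
  refine ⟨⟨0, zero_mem_PD⟩, ?_⟩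
  have hb : Convex ℝ (ball (0 : ℂ) 1) := convex_ball _ _
  let A1 : Set ℂ := ball (0 : ℂ) 1 ∩ {z | 0 < z.im}
  let A2 : Set ℂ := ball (0 : ℂ) 1 ∩ {z | z.im < 0}
  let A3 : Set ℂ := ball (0 : ℂ) 1 ∩ {z | z.re < 1 / 2}
  let A4 : Set ℂ := ball (0 : ℂ) 1 ∩ {z | 1 / 2 < z.re}
  have h1 : IsPreconnected A1 := (hb.inter (convex_halfSpace_im_gt 0)).isPreconnected
  have h2 : IsPreconnected A2 := (hb.inter (convex_halfSpace_im_lt 0)).isPreconnected
  have h3 : IsPreconnected A3 := (hb.inter (convex_halfSpace_re_lt (1 / 2))).isPreconnected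
  have h4 : IsPreconnected A4 := (hb.inter (convex_halfSpace_re_gt (1 / 2))).isPreconnected
  have hnorm : ∀ x y : ℝ, x ^ 2 + y ^ 2 < 1 → (⟨x, y⟩ : ℂ) ∈ ball (0 : ℂ) 1 := by
    intro x y hxy
    rw [mem_ball_zero_iff]
    have : ‖(⟨x, y⟩ : ℂ)‖ ^ 2 < 1 ^ 2 := by
      rw [← Complex.normSq_eq_norm_sq, Complex.normSq_apply]
      nlinarith
    exact lt_of_pow_lt_pow_left₀ 2 (by norm_num) this
  have e1 : IsPreconnected (A3 ∪ A1) := by
    apply IsPreconnected.union (⟨0, 1 / 2⟩ : ℂ) _ _ h3 h1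
    · exact ⟨hnorm _ _ (by norm_num), by simp⟩
    · exact ⟨hnorm _ _ (by norm_num), by simp⟩
  have e2 : IsPreconnected ((A3 ∪ A1) ∪ A2) := by
    apply IsPreconnected.union (⟨0, -1 / 2⟩ : ℂ) _ _ e1 h2
    · exact Or.inl ⟨hnorm _ _ (by norm_num), by simp⟩
    · exact ⟨hnorm _ _ (by norm_num), by simp; norm_num⟩
  have e3 : IsPreconnected (((A3 ∪ A1) ∪ A2) ∪ A4) := by
    apply IsPreconnected.union (⟨3 / 5, 1 / 2⟩ : ℂ) _ _ e2 h4
    · exact Or.inl (Or.inr ⟨hnorm _ _ (by norm_num), by simp⟩)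
    · exact ⟨hnorm _ _ (by norm_num), by simp; norm_num⟩
  convert e3 using 1
  ext z
  constructor
  · rintro ⟨hz1, hz2⟩
    rcases lt_trichotomy z.re (1 / 2) with h | h | h
    · exact Or.inl (Or.inl (Or.inl ⟨hz1, h⟩))
    · rcases lt_trichotomy z.im 0 with g | g | g
      · exact Or.inl (Or.inr ⟨hz1, g⟩)
      · exfalso
        apply hz2
        rw [mem_singleton_iff]
        apply Complex.ext
        · rw [h]; norm_num
        · rw [g]; norm_num
      · exact Or.inl (Or.inl (Or.inr ⟨hz1, g⟩))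
    · exact Or.inr ⟨hz1, h⟩
  · rintro (((⟨hz1, hz2⟩ | ⟨hz1, hz2⟩) | ⟨hz1, hz2⟩) | ⟨hz1, hz2⟩)
    all_goals
      refine ⟨hz1, ?_⟩
      rintro h
      rw [mem_singleton_iff] at h
      subst h
      simp at hz2

theorem not_simplyConnected_PD : ¬ SimplyConnectedSpace PD := by
  intro hsc
  have hg : ContinuousOn (fun z : ℂ => z - 1 / 2) PD := by fun_prop
  obtain ⟨f, hf, hfe⟩ := Complex.exists_continuousOn_eqOn_exp_comp (U := PD) hsc isOpen_PD
    (g := fun z : ℂ => z - 1 / 2) hg (by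
      rintro ⟨z, hz, hz0⟩
      apply hz.2
      rw [mem_singleton_iff]
      exact sub_eq_zero.1 hz0)
  -- the loop
  let z : ℝ → ℂ := fun t => 1 / 2 + (1 / 4 : ℂ) * Complex.exp (t * Complex.I)
  have hz : ∀ t, z t ∈ PD := by
    intro t
    have hn : ‖(1 / 4 : ℂ) * Complex.exp (t * Complex.I)‖ = 1 / 4 := by
      rw [norm_mul, Complex.norm_exp_ofReal_mul_I]
      norm_num
    refine ⟨?_, ?_⟩
    · rw [mem_ball_zero_iff]
      calc ‖z t‖ ≤ ‖(1 / 2 : ℂ)‖ + ‖(1 / 4 : ℂ) * Complex.exp (t * Complex.I)‖ := norm_add_le _ _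
        _ = 1 / 2 + 1 / 4 := by rw [hn]; norm_num
        _ < 1 := by norm_num
    · intro h
      rw [mem_singleton_iff] at h
      have h' : (1 / 4 : ℂ) * Complex.exp (t * Complex.I) = 0 := by
        have h2 : z t - 1 / 2 = 0 := by rw [h]; ring
        simp only [z, add_sub_cancel_left] at h2
        exact h2
      rw [h'] at hn
      norm_num at hn
  have hzc : Continuous z := by fun_prop
  have hFc : Continuous (fun t : ℝ => f (z t)) :=
    hf.comp_continuous hzc hz
  have hexp : ∀ t : ℝ, Complex.exp (f (z t) - t * Complex.I) = 1 / 4 := by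
    intro t
    have h1 := hfe (hz t)
    simp only [Function.comp] at h1
    rw [Complex.exp_sub, h1]
    have h2 : z t - 1 / 2 = (1 / 4 : ℂ) * Complex.exp (t * Complex.I) := by
      simp [z]
    rw [h2]
    field_simp [Complex.exp_ne_zero]
  let G : ℝ → ℝ := fun t => ((f (z t) - t * Complex.I) - f (z 0)).im
  have hGc : Continuous G :=
    Complex.continuous_im.comp ((hFc.sub (by fun_prop)).sub continuous_const)
  have hGint : ∀ t : ℝ, ∃ n : ℤ, G t = n * (2 * Real.pi) := by
    intro t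
    have h1 := hexp t
    have h0 := hexp 0
    simp only [Complex.ofReal_zero, zero_mul, sub_zero] at h0
    rw [← h0] at h1
    obtain ⟨n, hn⟩ := Complex.exp_eq_exp_iff_exists_int.1 h1
    refine ⟨n, ?_⟩
    simp only [G]
    rw [hn]
    simp
  have hG0 : G 0 = 0 := by simp [G]
  have hper : z (2 * Real.pi) = z 0 := by
    simp only [z]
    congr 2
    have : ((2 * Real.pi : ℝ) : ℂ) * Complex.I = 2 * Real.pi * Complex.I := by push_cast; ring
    rw [this, Complex.exp_two_pi_mul_I]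
    simp
  have hG1 : G (2 * Real.pi) = -(2 * Real.pi) := by
    simp only [G]
    rw [hper]
    simp
  have hivt : (-Real.pi) ∈ G '' (Icc 0 (2 * Real.pi)) := by
    apply intermediate_value_Icc' (by positivity) hGc.continuousOn
    rw [hG0, hG1]
    constructor <;> linarith [Real.pi_pos]
  obtain ⟨t, _, ht⟩ := hivt
  obtain ⟨n, hn⟩ := hGint t
  rw [ht] at hn
  have hpi := Real.pi_pos
  have h3 : (-1 : ℝ) = 2 * n := by
    have : (-1 : ℝ) * Real.pi = (2 * n) * Real.pi := by linarith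
    exact mul_right_cancel₀ hpi.ne' this
  have h4 : (-1 : ℤ) = 2 * n := by exact_mod_cast h3
  omega

/-- The Green function of the punctured disc with pole `0`. -/
noncomputable def gPD (z : ℂ) : ℝ := -Real.log ‖z‖

theorem norm_lt_one_of_mem {z : ℂ} (hz : z ∈ PD) : ‖z‖ < 1 := by
  have := hz.1
  rwa [mem_ball_zero_iff] at this

theorem ne_half_of_mem {z : ℂ} (hz : z ∈ PD) : z ≠ 1 / 2 := fun h => hz.2 h

theorem gPD_harmonic : HarmonicOnNhd gPD (PD \ {0}) := by
  rintro z ⟨hz1, hz2⟩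
  have hz0 : z ≠ 0 := fun h => hz2 h
  have h1 : AnalyticAt ℂ (fun z : ℂ => z) z := by fun_prop
  have h2 := (h1.harmonicAt_log_norm hz0).neg
  exact h2

theorem gPD_pos {z : ℂ} (hz : z ∈ PD \ {0}) : 0 < gPD z := by
  have hz0 : z ≠ 0 := fun h => hz.2 h
  have := Real.log_neg (norm_pos_iff.2 hz0) (norm_lt_one_of_mem hz.1)
  simp only [gPD]
  linarith

theorem gPD_minimal (u : ℂ → ℝ) (hpos : ∀ z ∈ PD \ {0}, 0 < u z)
    (h : ℂ → ℝ) (hh : HarmonicOnNhd h PD) (hhu : ∀ z ∈ PD \ {0}, h z = u z + Real.log ‖z - 0‖) :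
    ∀ z ∈ PD \ {0}, gPD z ≤ u z := by
  -- suffices `0 ≤ h`
  have hlow : ∀ z ∈ PD, z ≠ 0 → Real.log ‖z‖ < h z := by
    intro z hz hz0
    have h1 := hhu z ⟨hz, hz0⟩
    have h2 := hpos z ⟨hz, hz0⟩
    rw [sub_zero] at h1
    linarith
  let B : ℂ → ℝ := fun z => Real.log 2 - Real.log ‖z - 1 / 2‖
  have hBpos : ∀ z ∈ PD, 0 < B z := by
    intro z hz
    have h1 : 0 < ‖z - 1 / 2‖ := norm_pos_iff.2 (sub_ne_zero.2 (ne_half_of_mem hz))
    have h2 : ‖z - 1 / 2‖ < 2 := by
      calc ‖z - 1 / 2‖ ≤ ‖z‖ + ‖(1 / 2 : ℂ)‖ := norm_sub_le _ _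
        _ < 1 + 1 / 2 := by
            have := norm_lt_one_of_mem hz
            have h3 : ‖(1 / 2 : ℂ)‖ = 1 / 2 := by norm_num
            linarith
        _ < 2 := by norm_num
    have := Real.log_lt_log h1 h2
    simp only [B]
    linarith
  have hBh : HarmonicOnNhd B PD := by
    intro z hz
    exact (harmonicAt_const (Real.log 2)).sub (harmonicAt_log_sub (ne_half_of_mem hz))
  have key : ∀ ε : ℝ, 0 < ε → ∀ z ∈ PD, 0 ≤ h z + ε * B z := by
    intro ε hε
    have hharm : HarmonicOnNhd (fun z => h z + ε * B z) PD := by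
      intro z hz
      exact (hh z hz).add ((hBh z hz).const_smul (c := ε))
    apply weak_min isOpen_PD hharm
    intro δ hδ
    -- radius near the puncture
    let ρ : ℝ := min (1 / 4) (2 * Real.exp (-(Real.log 4 / ε)))
    have hρ : 0 < ρ := lt_min (by norm_num) (by positivity)
    let r : ℝ := Real.exp (-δ)
    have hr1 : r < 1 := by
      simp only [r]
      rw [Real.exp_lt_one_iff]
      linarith
    have hr0 : 0 < r := Real.exp_pos _
    refine ⟨closedBall 0 r ∩ {z | ρ ≤ ‖z - 1 / 2‖}, ?_, ?_, ?_⟩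
    · rintro z ⟨h1, h2⟩
      rw [mem_closedBall_zero_iff] at h1
      refine ⟨?_, ?_⟩
      · rw [mem_ball_zero_iff]
        linarith
      · intro h3
        rw [mem_singleton_iff] at h3
        subst h3
        simp only [mem_ofPred_eq, sub_self, norm_zero] at h2
        linarith
    · apply (isCompact_closedBall 0 r).inter_right
      exact isClosed_le continuous_const (by fun_prop)
    · intro z hz hnot
      have hB := hBpos z hz
      have hεB := mul_pos hε hB
      by_cases c1 : z ∈ closedBall (0 : ℂ) r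
      · have c2 : ¬ (ρ ≤ ‖z - 1 / 2‖) := fun h => hnot ⟨c1, h⟩
        push Not at c2
        have h1 : 0 < ‖z - 1 / 2‖ := norm_pos_iff.2 (sub_ne_zero.2 (ne_half_of_mem hz))
        have h2 : ‖z - 1 / 2‖ < 1 / 4 := lt_of_lt_of_le c2 (min_le_left _ _)
        have h3 : ‖z - 1 / 2‖ < 2 * Real.exp (-(Real.log 4 / ε)) :=
          lt_of_lt_of_le c2 (min_le_right _ _)
        have h4 : 1 / 4 < ‖z‖ := by
          have h5 : ‖(1 / 2 : ℂ)‖ ≤ ‖z‖ + ‖z - 1 / 2‖ := by
            have : (1 / 2 : ℂ) = z - (z - 1 / 2) := by ring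
            calc ‖(1 / 2 : ℂ)‖ = ‖z - (z - 1 / 2)‖ := by rw [← this]
              _ ≤ ‖z‖ + ‖z - 1 / 2‖ := norm_sub_le _ _
          have h6 : ‖(1 / 2 : ℂ)‖ = 1 / 2 := by norm_num
          rw [h6] at h5
          linarith
        have hz0 : z ≠ 0 := by
          rintro rfl
          simp at h4
          linarith
        have h7 := hlow z hz hz0
        have h8 : Real.log (1 / 4) < Real.log ‖z‖ := Real.log_lt_log (by norm_num) h4
        have h9 : Real.log (1 / 4) = -Real.log 4 := by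
          rw [one_div, Real.log_inv]
        have h10 : Real.log ‖z - 1 / 2‖ < Real.log 2 + -(Real.log 4 / ε) := by
          have := Real.log_lt_log h1 h3
          rwa [Real.log_mul (by norm_num) (Real.exp_pos _).ne', Real.log_exp] at this
        have h11 : Real.log 4 / ε < B z := by
          simp only [B]
          linarith
        rw [div_lt_iff₀ hε] at h11
        linarith
      · rw [mem_closedBall_zero_iff, not_le] at c1
        have hz0 : z ≠ 0 := by
          rintro rfl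
          simp at c1
          linarith
        have h7 := hlow z hz hz0
        have h8 := Real.log_lt_log hr0 c1
        rw [Real.log_exp] at h8
        linarith
  have hnonneg : ∀ z ∈ PD, 0 ≤ h z := by
    intro z hz
    by_contra hneg
    push Not at hneg
    have hB := hBpos z hz
    have := key (-h z / (2 * B z)) (div_pos (by linarith) (by linarith)) z hz
    have h9 : -h z / (2 * B z) * B z = -h z / 2 := by
      field_simp
    rw [h9] at this
    linarith
  intro z hz
  have h1 := hhu z hz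
  have h2 := hnonneg z hz.1
  rw [sub_zero] at h1
  simp only [gPD]
  linarith

/-- The Poisson kernel of the unit disc with pole `ω`. -/
noncomputable def pk (ω z : ℂ) : ℝ := ((ω + z) / (ω - z)).re

theorem pk_eq {ω z : ℂ} (hω : ‖ω‖ = 1) : pk ω z = (1 - ‖z‖ ^ 2) / ‖ω - z‖ ^ 2 := by
  have h1 := congrFun (poissonKernel_eq_re_herglotzRieszKernel (c := 0) (w := z)) ω
  simp only [poissonKernel_def, Function.comp, herglotzRieszKernel_def, sub_zero] at h1
  rw [hω] at h1
  simp only [pk]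
  rw [← h1]
  norm_num

theorem pk_harmonic {ω z : ℂ} (hω : ‖ω‖ = 1) (hz : ‖z‖ < 1) : HarmonicAt (pk ω) z := by
  have hne : ω - z ≠ 0 := by
    intro h
    rw [sub_eq_zero] at h
    rw [h] at hω
    linarith
  have h1 : AnalyticAt ℂ (fun z : ℂ => (ω + z) / (ω - z)) z := by
    apply AnalyticAt.div
    · fun_prop
    · fun_prop
    · exact hne
  exact h1.harmonicAt_re

theorem pk_pos {ω z : ℂ} (hω : ‖ω‖ = 1) (hz : ‖z‖ < 1) : 0 < pk ω z := by
  rw [pk_eq hω]
  have hne : ω - z ≠ 0 := by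
    intro h
    rw [sub_eq_zero] at h
    rw [h] at hω
    linarith
  have h0 := norm_nonneg z
  have : 0 < ‖ω - z‖ := norm_pos_iff.2 hne
  apply div_pos
  · nlinarith
  · positivity

theorem pk_zero {ω : ℂ} (hω : ‖ω‖ = 1) : pk ω 0 = 1 := by
  rw [pk_eq hω]
  simp [hω]

/-- Minimality of the Poisson kernel with pole `1` on the punctured disc. -/
theorem pk_minimal (u : ℂ → ℝ) (hu : HarmonicOnNhd u PD)
    (hle : ∀ z ∈ PD, 0 < u z ∧ u z ≤ pk 1 z) : ∃ c : ℝ, ∀ z ∈ PD, u z = c * pk 1 z := by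
  let φ : ℂ → ℂ := fun w => (w - 1) / (w + 1)
  have hφne : ∀ w ∈ HP \ {((3 : ℝ) : ℂ)}, w + 1 ≠ 0 := by
    rintro w ⟨hw, -⟩ h
    have h1 : 0 < w.re := hw
    have h2 := congrArg Complex.re h
    simp at h2
    linarith
  have hφmem : ∀ w ∈ HP \ {((3 : ℝ) : ℂ)}, φ w ∈ PD := by
    rintro w hw
    have hne := hφne w hw
    obtain ⟨hw1, hw2⟩ := hw
    have h1 : 0 < w.re := hw1
    refine ⟨?_, ?_⟩
    · rw [mem_ball_zero_iff]
      simp only [φ]
      rw [norm_div, div_lt_one (norm_pos_iff.2 hne)]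
      have := norm_lt_norm_conj (p := 1) (w := w) (by simp) h1
      simpa using this
    · intro h
      apply hw2
      rw [mem_singleton_iff] at h ⊢
      simp only [φ] at h
      rw [div_eq_div_iff hne (by norm_num)] at h
      push_cast
      linear_combination h
  have hφpk : ∀ w ∈ HP \ {((3 : ℝ) : ℂ)}, pk 1 (φ w) = w.re := by
    intro w hw
    have hne := hφne w hw
    simp only [pk, φ]
    congr 1
    field_simp
    ring
  have hφan : ∀ w ∈ HP \ {((3 : ℝ) : ℂ)}, AnalyticAt ℂ φ w := by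
    intro w hw
    apply AnalyticAt.div
    · fun_prop
    · fun_prop
    · exact hφne w hw
  obtain ⟨α, hα⟩ := halfplane_minimal (b := 3) (by norm_num) (U := fun w => u (φ w))
    (fun w hw => harmonicAt_comp (hφan w hw) (hu _ (hφmem w hw)))
    (fun w hw => (hle _ (hφmem w hw)).1)
    (fun w hw => by
      have := (hle _ (hφmem w hw)).2
      rwa [hφpk w hw] at this)
  refine ⟨α, fun z hz => ?_⟩
  have hz1 := norm_lt_one_of_mem hz
  have hne : (1 : ℂ) - z ≠ 0 := by
    intro h
    rw [sub_eq_zero] at h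
    rw [← h] at hz1
    simp at hz1
  let w : ℂ := (1 + z) / (1 - z)
  have hwre : w.re = pk 1 z := rfl
  have hw : w ∈ HP \ {((3 : ℝ) : ℂ)} := by
    refine ⟨?_, ?_⟩
    · show 0 < w.re
      rw [hwre]
      exact pk_pos (by simp) hz1
    · intro h
      rw [mem_singleton_iff] at h
      simp only [w] at h
      rw [div_eq_iff hne] at h
      apply ne_half_of_mem hz
      push_cast at h
      linear_combination (1 / 4 : ℂ) * h
  have hφw : φ w = z := by
    have h1 : w + 1 ≠ 0 := hφne w hw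
    simp only [φ]
    rw [div_eq_iff h1]
    simp only [w]
    field_simp
    ring
  have := hα w hw
  simp only [hφw, hwre] at this
  exact this

/-- The (normalised) Green function of the disc with pole `1/2`. -/
noncomputable def ga (z : ℂ) : ℝ := (Real.log ‖1 - z / 2‖ - Real.log ‖z - 1 / 2‖) / Real.log 2

theorem ga_zero : ga 0 = 1 := by
  have h : Real.log 2 ≠ 0 := (Real.log_pos (by norm_num)).ne'
  simp only [ga, zero_div, sub_zero, norm_one, Real.log_one, zero_sub, norm_neg]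
  have h1 : ‖(1 / 2 : ℂ)‖ = 2⁻¹ := by norm_num
  rw [h1, Real.log_inv]
  field_simp

theorem ga_harmonic : HarmonicOnNhd ga PD := by
  intro z hz
  have hz1 := norm_lt_one_of_mem hz
  have h1 : AnalyticAt ℂ (fun z : ℂ => 1 - z / 2) z := by fun_prop
  have hne : (1 : ℂ) - z / 2 ≠ 0 := by
    intro h
    have : z = 2 := by linear_combination (-2 : ℂ) * h
    rw [this] at hz1
    norm_num at hz1
  have h2 := (((h1.harmonicAt_log_norm hne).sub
    (harmonicAt_log_sub (ne_half_of_mem hz))).const_smul (c := (Real.log 2)⁻¹))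
  convert h2 using 1
  ext w
  simp only [ga, Pi.smul_apply, Pi.sub_apply, smul_eq_mul]
  rw [div_eq_inv_mul]

theorem ga_pos {z : ℂ} (hz : z ∈ PD) : 0 < ga z := by
  have hz1 := norm_lt_one_of_mem hz
  have h1 : 0 < ‖z - 1 / 2‖ := norm_pos_iff.2 (sub_ne_zero.2 (ne_half_of_mem hz))
  have h2 : ‖z - 1 / 2‖ < ‖1 - z / 2‖ := by
    have h3 : ‖z - 1 / 2‖ ^ 2 < ‖1 - z / 2‖ ^ 2 := by
      have h4 : ‖z‖ ^ 2 < 1 := by
        have := norm_nonneg z
        nlinarith
      rw [← Complex.normSq_eq_norm_sq, Complex.normSq_apply] at h4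
      have h5 : (z - 1 / 2).re = z.re - 1 / 2 := by simp
      have h6 : (z - 1 / 2).im = z.im := by simp
      have h7 : (1 - z / 2).re = 1 - z.re / 2 := by simp
      have h8 : (1 - z / 2).im = - z.im / 2 := by simp; ring
      rw [← Complex.normSq_eq_norm_sq, ← Complex.normSq_eq_norm_sq, Complex.normSq_apply,
        Complex.normSq_apply, h5, h6, h7, h8]
      nlinarith
    exact lt_of_pow_lt_pow_left₀ 2 (norm_nonneg _) h3
  have h3 := Real.log_lt_log h1 h2
  have h4 : 0 < Real.log 2 := Real.log_pos (by norm_num)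
  simp only [ga]
  apply div_pos _ h4
  linarith

/-- On small positive reals the Green function beats the Poisson kernel. -/
theorem pk_lt_ga {r : ℝ} (hr0 : 0 < r) (hr1 : r ≤ 1 / 10) : pk 1 (r : ℂ) < ga (r : ℂ) := by
  have hl2 : 0 < Real.log 2 := Real.log_pos (by norm_num)
  have e1 : pk 1 (r : ℂ) = (1 + r) / (1 - r) := by
    simp only [pk]
    have : ((1 : ℂ) + r) / (1 - r) = (((1 + r) / (1 - r) : ℝ) : ℂ) := by push_cast; rfl
    rw [this, Complex.ofReal_re]
  have e2 : ‖(1 : ℂ) - r / 2‖ = 1 - r / 2 := by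
    have : (1 : ℂ) - r / 2 = ((1 - r / 2 : ℝ) : ℂ) := by push_cast; rfl
    rw [this, Complex.norm_real, Real.norm_eq_abs, abs_of_pos (by linarith)]
  have e3 : ‖(r : ℂ) - 1 / 2‖ = 1 / 2 - r := by
    have : (r : ℂ) - 1 / 2 = ((r - 1 / 2 : ℝ) : ℂ) := by push_cast; rfl
    rw [this, Complex.norm_real, Real.norm_eq_abs, abs_of_neg (by linarith)]
    ring
  simp only [ga]
  rw [e1, e2, e3, lt_div_iff₀ hl2]
  have h1 : Real.log (1 / 2 - r) = Real.log (1 - 2 * r) - Real.log 2 := by
    rw [← Real.log_div (by linarith) (by norm_num)]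
    congr 1
    ring
  rw [h1]
  -- log ((1-r/2)/(1-2r)) ≥ 1 - (1-2r)/(1-r/2)
  have h2 : Real.log (1 - r / 2) - Real.log (1 - 2 * r) =
      Real.log ((1 - r / 2) / (1 - 2 * r)) := by
    rw [Real.log_div (by linarith) (by linarith)]
  have h3 : 1 - ((1 - r / 2) / (1 - 2 * r))⁻¹ ≤ Real.log ((1 - r / 2) / (1 - 2 * r)) :=
    Real.one_sub_inv_le_log_of_pos (div_pos (by linarith) (by linarith))
  have h4 : 1 - ((1 - r / 2) / (1 - 2 * r))⁻¹ = (3 * r / 2) / (1 - r / 2) := by
    have : 1 - r / 2 ≠ 0 := by linarith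
    have : 2 - r ≠ 0 := by linarith
    have : 1 - 2 * r ≠ 0 := by linarith
    rw [inv_div]
    field_simp
    ring
  have h5 : (1 + r) / (1 - r) * Real.log 2 = Real.log 2 + 2 * r / (1 - r) * Real.log 2 := by
    have : 1 - r ≠ 0 := by linarith
    field_simp
    ring
  have hlog := Real.log_two_lt_d9
  have h6 : 2 * r / (1 - r) * Real.log 2 < (3 * r / 2) / (1 - r / 2) := by
    have h7 : 2 * r / (1 - r) * Real.log 2 ≤ 2 * r / (1 - r) * 0.6931471808 := by
      apply mul_le_mul_of_nonneg_left hlog.le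
      apply div_nonneg <;> linarith
    have h8 : 2 * r / (1 - r) * 0.6931471808 < (3 * r / 2) / (1 - r / 2) := by
      rw [div_mul_eq_mul_div, div_lt_div_iff₀ (by linarith) (by linarith)]
      nlinarith
    linarith
  linarith

/-- Off the ray towards `1` another Poisson kernel is larger. -/
theorem pk_lt_pk {ω : ℂ} (hω : ‖ω‖ = 1) (hne : ω ≠ 1) {r : ℝ} (hr0 : 0 < r) (hr1 : r < 1) :
    pk 1 (r * ω) < pk ω (r * ω) := by
  rw [pk_eq (by simp), pk_eq hω]
  have hnr : ‖(r : ℂ) * ω‖ = r := by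
    rw [norm_mul, hω, Complex.norm_real, Real.norm_eq_abs, abs_of_pos hr0, mul_one]
  rw [hnr]
  have e1 : ω - r * ω = ((1 - r : ℝ) : ℂ) * ω := by push_cast; ring
  have e2 : ‖ω - r * ω‖ = 1 - r := by
    rw [e1, norm_mul, hω, Complex.norm_real, Real.norm_eq_abs, abs_of_pos (by linarith), mul_one]
  have hre : ω.re < 1 := by
    have h1 : ω.re ≤ ‖ω‖ := Complex.re_le_norm _
    rw [hω] at h1
    rcases lt_or_eq_of_le h1 with h | h
    · exact h
    · exfalso
      apply hne
      have h2 : ‖ω‖ ^ 2 = 1 := by rw [hω]; norm_num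
      rw [← Complex.normSq_eq_norm_sq, Complex.normSq_apply, h] at h2
      apply Complex.ext
      · simpa using h
      · simp
        nlinarith
  have e3 : ‖(1 : ℂ) - r * ω‖ ^ 2 = 1 - 2 * r * ω.re + r ^ 2 := by
    have h2 : ‖ω‖ ^ 2 = 1 := by rw [hω]; norm_num
    rw [← Complex.normSq_eq_norm_sq, Complex.normSq_apply] at h2
    rw [← Complex.normSq_eq_norm_sq, Complex.normSq_apply]
    simp only [Complex.sub_re, Complex.one_re, Complex.mul_re, Complex.ofReal_re,
      Complex.ofReal_im, zero_mul, sub_zero, Complex.sub_im, Complex.one_im, Complex.mul_im,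
      add_zero, zero_sub]
    nlinarith
  rw [e2, e3]
  have hpos : 0 < (1 - r) ^ 2 := by
    have : 0 < 1 - r := by linarith
    positivity
  apply div_lt_div_of_pos_left
  · nlinarith
  · exact hpos
  · nlinarith

end Pool.Agent.Lib.MP_e6ddea_an
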