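import Mathlib
import Pool.Agent.Lib.MP_e6ddea_an.Domain

set_option autoImplicit false

open InnerProductSpace Metric Set Filter Topology

namespace Pool.Agent.Lib.MP_e6ddea_an

/-- Gradient of the Green function of the disc. -/
theorem gradient_gPD {z : ℂ} (hz : z ≠ 0) : gradient gPD z = -((‖z‖ ^ 2)⁻¹ • z) := by
  have hn : 0 < ‖z‖ ^ 2 := by
    have := norm_pos_iff.2 hz
    positivity
  have h1 : HasFDerivAt (fun x : ℂ => ‖x‖ ^ 2) (2 • innerSL ℝ z) z :=
    (hasStrictFDerivAt_norm_sq z).hasFDerivAt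
  have h2 : HasFDerivAt (fun x : ℂ => Real.log (‖x‖ ^ 2)) ((‖z‖ ^ 2)⁻¹ • (2 • innerSL ℝ z)) z :=
    h1.log hn.ne'
  have h3 : gPD = fun x : ℂ => (-(1 / 2) : ℝ) * Real.log (‖x‖ ^ 2) := by
    funext x
    simp only [gPD]
    rw [Real.log_pow]
    push_cast
    ring
  have h4 : HasFDerivAt gPD ((-(1 / 2) : ℝ) • ((‖z‖ ^ 2)⁻¹ • (2 • innerSL ℝ z))) z := by
    rw [h3]
    exact h2.const_smul (-(1 / 2) : ℝ)
  have h6 : (-(1 / 2) : ℝ) • ((‖z‖ ^ 2)⁻¹ • (2 • innerSL ℝ z)) =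
      toDual ℝ ℂ (-((‖z‖ ^ 2)⁻¹ • z)) := by
    refine ContinuousLinearMap.ext fun v => ?_
    simp only [toDual_apply_apply, inner_neg_left, real_inner_smul_left, smul_apply,
      innerSL_apply_apply, smul_eq_mul, nsmul_eq_mul]
    push_cast
    ring
  have h5 : HasGradientAt gPD (-((‖z‖ ^ 2)⁻¹ • z)) z := by
    rw [hasGradientAt_iff_hasFDerivAt, ← h6]
    exact h4
  exact h5.gradient

/-- The Green lines of the punctured disc issuing from `0` are rays. -/
theorem green_line_form (m : ℝ) (γ : ℝ → ℂ)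
    (h : ∀ s : ℝ, m < s → γ s ≠ 0 ∧ gPD (γ s) = s ∧
      HasDerivAt γ ((‖gradient gPD (γ s)‖ ^ 2)⁻¹ • gradient gPD (γ s)) s) :
    ∃ ω : ℂ, ‖ω‖ = 1 ∧ ∀ s : ℝ, m < s → γ s = (Real.exp (-s) : ℂ) * ω := by
  have hder : ∀ s : ℝ, m < s → HasDerivAt γ (-(γ s)) s := by
    intro s hs
    obtain ⟨h1, h2, h3⟩ := h s hs
    rw [gradient_gPD h1] at h3
    convert h3 using 1
    have hn : 0 < ‖γ s‖ := norm_pos_iff.2 h1
    rw [norm_neg, norm_smul, norm_inv, norm_pow, norm_norm, smul_neg, smul_smul]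
    have : ((‖γ s‖ ^ 2)⁻¹ * ‖γ s‖) ^ 2 = (‖γ s‖ ^ 2)⁻¹ := by
      field_simp
    rw [this, inv_inv, mul_inv_cancel₀ (by positivity), one_smul]
  let η : ℝ → ℂ := fun s => Complex.exp s * γ s
  have hη : ∀ s : ℝ, m < s → HasDerivAt η 0 s := by
    intro s hs
    have h1 : HasDerivAt (fun s : ℝ => Complex.exp s) (Complex.exp s) s := by
      have := (Complex.hasDerivAt_exp (s : ℂ)).comp_ofReal
      simpa using this
    have h2 := h1.mul (hder s hs)
    have h3 : Complex.exp s * γ s + Complex.exp s * -γ s = 0 := by ring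
    rw [h3] at h2
    exact h2
  have hconst : ∀ s ∈ Ioi m, η s = η (m + 1) := by
    intro s hs
    apply isOpen_Ioi.is_const_of_deriv_eq_zero (𝕜 := ℝ) isPreconnected_Ioi _ _ hs
    · show m < m + 1
      linarith
    · intro x hx
      exact (hη x hx).differentiableAt.differentiableWithinAt
    · intro x hx
      exact (hη x hx).deriv
  refine ⟨η (m + 1), ?_, ?_⟩
  · have hm : m < m + 1 := by linarith
    obtain ⟨h1, h2, -⟩ := h (m + 1) hm
    simp only [gPD] at h2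
    have hn : 0 < ‖γ (m + 1)‖ := norm_pos_iff.2 h1
    have h3 : ‖γ (m + 1)‖ = Real.exp (-(m + 1)) := by
      have : Real.log ‖γ (m + 1)‖ = -(m + 1) := by linarith
      rw [← this, Real.exp_log hn]
    simp only [η]
    rw [norm_mul, h3, Complex.norm_exp, Complex.ofReal_re, ← Real.exp_add]
    simp
  · intro s hs
    rw [← hconst s hs]
    simp only [η]
    rw [← mul_assoc, Complex.ofReal_exp, ← Complex.exp_add]
    simp

end Pool.Agent.Lib.MP_e6ddea_an
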